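import Pool.Agent.Q177.EL.CLS
import Pool.Agent.Cov.PNT

/-!
# Project EL (helper270): sums of von Mangoldt values of one form over residue classes
-/

set_option autoImplicit false

namespace Pool.Agent.Q24.EL

open Finset Filter Topology
open Pool.Agent.Q270.EN Pool.Agent.Q259.RM Pool.Agent.Q177.EL

lemma disc_one (x y : ℤ) : disc (fun _ : Fin 1 => x) (fun _ : Fin 1 => y) = x := by
  unfold disc
  rw [Fin.prod_univ_one, Fin.prod_univ_one]
  have h : (univ.filter (fun j : Fin 1 => (0 : Fin 1) < j)) = ∅ := by decide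
  rw [h, prod_empty, mul_one]

lemma vL_one (x y : ℤ) (n : ℕ) : vL (fun _ : Fin 1 => x) (fun _ : Fin 1 => y) n =
    ArithmeticFunction.vonMangoldt (x * n + y).natAbs := by
  unfold vL
  simp

/-- the mean value for one form -/
lemma MA1 : ∃ C : ℝ, 0 < C ∧ ∃ N₁ : ℕ, ∀ N : ℕ, N₁ ≤ N → ∀ x y : ℕ, 1 ≤ x → x ≤ N ^ 4 →
    y ≤ N ^ 4 → ∑ n ∈ Icc 1 N, ArithmeticFunction.vonMangoldt (x * n + y) ≤ C * N * AF x := by
  obtain ⟨C, hC, h⟩ := MA 1 4 (by norm_num)
  obtain ⟨N₁, hN₁⟩ := eventually_atTop.1 h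
  refine ⟨C, hC, N₁, fun N hN x y hx hxN hyN => ?_⟩
  have h1 := hN₁ N hN (fun _ => (x : ℤ)) (fun _ => (y : ℤ)) (fun _ => ⟨by exact_mod_cast hx,
    by exact_mod_cast hxN, Int.natCast_nonneg _, by exact_mod_cast hyN⟩)
    (by rw [disc_one]; exact_mod_cast (by omega : x ≠ 0))
  rw [disc_one, pow_one] at h1
  refine le_trans (le_of_eq (sum_congr rfl fun n _ => ?_)) h1
  rw [vL_one]
  congr 1

lemma vT_sing (a b n : ℕ) : vT {(a, b)} n = ArithmeticFunction.vonMangoldt (a * n + b) := by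
  unfold vT
  rw [prod_singleton]

/-- one class -/
lemma one_class {C : ℝ} {N₁ : ℕ} (hMA : ∀ N : ℕ, N₁ ≤ N → ∀ x y : ℕ, 1 ≤ x → x ≤ N ^ 4 →
    y ≤ N ^ 4 → ∑ n ∈ Icc 1 N, ArithmeticFunction.vonMangoldt (x * n + y) ≤ C * N * AF x)
    (a b : ℕ) (ha : 1 ≤ a) (N m r : ℕ) (hm : 1 ≤ m) (h1 : N₁ ≤ N / m)
    (h2 : a * m + b ≤ (N / m) ^ 4) :
    ∑ n ∈ (Icc 1 N).filter (fun n => n % m = r % m),
      ArithmeticFunction.vonMangoldt (a * n + b) ≤
      Real.log ((a * m + b : ℕ) : ℝ) + C * ((N / m : ℕ) : ℝ) * AF ((a * m : ℕ) : ℤ) := by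
  have h3 := sum_split {(a, b)} N m r hm
  simp only [vT_sing] at h3
  refine h3.trans (add_le_add ?_ ?_)
  · refine ArithmeticFunction.vonMangoldt_le_log.trans ?_
    rcases Nat.eq_zero_or_pos (a * (r % m) + b) with h | h
    · rw [h, Nat.cast_zero, Real.log_zero]
      exact Real.log_natCast_nonneg _
    · refine Real.log_le_log (by exact_mod_cast h) ?_
      have h4 : a * (r % m) ≤ a * m := Nat.mul_le_mul_left _ (Nat.mod_lt _ hm).le
      exact_mod_cast (by omega : a * (r % m) + b ≤ a * m + b)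
  · have h4 : a * (r % m) ≤ a * m := Nat.mul_le_mul_left _ (Nat.mod_lt _ hm).le
    have h5 := hMA (N / m) h1 (a * m) (a * (r % m) + b) (Nat.mul_pos ha hm) (by omega) (by omega)
    refine le_trans (le_of_eq (sum_congr rfl fun i _ => ?_)) h5
    congr 1
    ring

/-- the elements of a class modulo `Q` in a class modulo a prime -/
lemma two_classes {C : ℝ} {N₁ : ℕ} (hC : 0 < C)
    (hMA : ∀ N : ℕ, N₁ ≤ N → ∀ x y : ℕ, 1 ≤ x → x ≤ N ^ 4 →
    y ≤ N ^ 4 → ∑ n ∈ Icc 1 N, ArithmeticFunction.vonMangoldt (x * n + y) ≤ C * N * AF x)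
    (a b Q : ℕ) (ha : 1 ≤ a) (hQ : 1 ≤ Q) :
    ∀ᶠ N : ℕ in atTop, ∀ p : ℕ, p.Prime → p * p ≤ N → Nat.Coprime Q p → ∀ r r' : ℕ,
      ∑ n ∈ (Icc 1 N).filter (fun n => n % Q = r % Q ∧ n % p = r' % p),
        ArithmeticFunction.vonMangoldt (a * n + b) ≤
        3 * C * (AF ((a * Q : ℕ) : ℤ) / Q) * N * (1 / p) := by
  have hQr : (1 : ℝ) ≤ Q := by exact_mod_cast hQ
  have haQ : ((a * Q : ℕ) : ℤ) ≠ 0 := by
    exact_mod_cast (Nat.mul_pos ha hQ).ne'
  have hAF := AF_one haQ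
  -- the conditions on the square root
  have c1 : ∀ᶠ s : ℝ in atTop, Real.log (((a * Q + b : ℕ) : ℝ) * s) ≤ C / Q * s := by
    rcases Nat.eq_zero_or_pos (a * Q + b) with h0 | h0
    · filter_upwards [eventually_ge_atTop 0] with s hs
      rw [h0]
      simp only [Nat.cast_zero, zero_mul, Real.log_zero]
      positivity
    · have hK : (0 : ℝ) < ((a * Q + b : ℕ) : ℝ) := by exact_mod_cast h0
      have h1 := Real.isLittleO_log_id_atTop.def (c := C / Q / ((a * Q + b : ℕ) : ℝ))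
        (by positivity)
      have h2 : Tendsto (fun s : ℝ => ((a * Q + b : ℕ) : ℝ) * s) atTop atTop :=
        tendsto_id.const_mul_atTop hK
      filter_upwards [h2.eventually h1, eventually_ge_atTop 0] with s hs hs0
      rw [id, Real.norm_eq_abs, Real.norm_eq_abs, abs_of_nonneg (mul_nonneg hK.le hs0)] at hs
      refine (le_abs_self _).trans (hs.trans (le_of_eq ?_))
      field_simp
  have c2 : ∀ᶠ s : ℝ in atTop, 2 * Q ≤ s ∧ 2 * Q * (N₁ : ℝ) ≤ s ∧
      16 * (Q : ℝ) ^ 4 * ((a * Q + b : ℕ) : ℝ) ≤ s ∧ 1 ≤ s := by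
    filter_upwards [eventually_ge_atTop (2 * (Q : ℝ)), eventually_ge_atTop (2 * Q * (N₁ : ℝ)),
      eventually_ge_atTop (16 * (Q : ℝ) ^ 4 * ((a * Q + b : ℕ) : ℝ)),
      eventually_ge_atTop (1 : ℝ)] with s h1 h2 h3 h4
    exact ⟨h1, h2, h3, h4⟩
  have hsq : Tendsto (fun N : ℕ => √(N : ℝ)) atTop atTop :=
    Real.tendsto_sqrt_atTop.comp tendsto_natCast_atTop_atTop
  filter_upwards [hsq.eventually c1, hsq.eventually c2] with N h1 h2 p hp hpN hcop r r'
  obtain ⟨h2, h3, h4, h5⟩ := h2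
  set s : ℝ := √(N : ℝ) with hs
  have hs0 : 0 < s := by linarith
  have hss : s * s = N := Real.mul_self_sqrt (Nat.cast_nonneg _)
  have hp0 : (0 : ℝ) < p := by exact_mod_cast hp.pos
  have hps : (p : ℝ) ≤ s := by
    rw [hs]
    apply Real.le_sqrt_of_sq_le
    rw [sq]
    exact_mod_cast hpN
  have hm0 : 1 ≤ Q * p := Nat.mul_pos hQ hp.pos
  have hm0r : (0 : ℝ) < ((Q * p : ℕ) : ℝ) := by exact_mod_cast hm0
  -- the quotient
  have hM1 : s / Q ≤ (N : ℝ) / ((Q * p : ℕ) : ℝ) := by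
    rw [div_le_div_iff₀ (by linarith) hm0r, ← hss]
    push_cast
    have e1 : s * ((Q : ℝ) * p) = (s * Q) * p := by ring
    have e2 : s * s * (Q : ℝ) = (s * Q) * s := by ring
    rw [e1, e2]
    exact mul_le_mul_of_nonneg_left hps (by positivity)
  have hM2 : (N : ℝ) / ((Q * p : ℕ) : ℝ) - 1 < ((N / (Q * p) : ℕ) : ℝ) := by
    rw [← Nat.floor_div_eq_div (K := ℝ)]
    exact Nat.sub_one_lt_floor _
  have hM3 : ((N / (Q * p) : ℕ) : ℝ) ≤ (N : ℝ) / ((Q * p : ℕ) : ℝ) := Nat.cast_div_le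
  have hsQ : (1 : ℝ) ≤ s / (2 * Q) := by
    rw [le_div_iff₀ (by linarith)]
    linarith
  have hM4 : s / (2 * Q) ≤ ((N / (Q * p) : ℕ) : ℝ) := by
    have e1 : s / Q = s / (2 * Q) + s / (2 * Q) := by
      field_simp
      ring
    linarith
  have hMN₁ : N₁ ≤ N / (Q * p) := by
    have e1 : (N₁ : ℝ) ≤ s / (2 * Q) := by
      rw [le_div_iff₀ (by linarith)]
      linarith
    exact_mod_cast e1.trans hM4
  have hcoef : a * (Q * p) + b ≤ (N / (Q * p)) ^ 4 := by
    have e1 : ((a * (Q * p) + b : ℕ) : ℝ) ≤ ((a * Q + b : ℕ) : ℝ) * s := by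
      push_cast
      have e2 : (a : ℝ) * (Q * p) ≤ a * Q * s := by
        have : (a : ℝ) * (Q * p) = a * Q * p := by ring
        rw [this]
        exact mul_le_mul_of_nonneg_left hps (by positivity)
      have e3 : (b : ℝ) ≤ b * s := by
        have : (0 : ℝ) ≤ b := Nat.cast_nonneg _
        nlinarith
      linarith [e2, e3]
    have e4 : ((a * Q + b : ℕ) : ℝ) * s ≤ (s / (2 * Q)) ^ 4 := by
      have e5 : (s / (2 * Q)) ^ 4 = s ^ 4 / (16 * (Q : ℝ) ^ 4) := by
        rw [div_pow, mul_pow]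
        norm_num
      rw [e5, le_div_iff₀ (by positivity)]
      have e6 : ((a * Q + b : ℕ) : ℝ) * s * (16 * (Q : ℝ) ^ 4) ≤ s * s := by
        have : ((a * Q + b : ℕ) : ℝ) * s * (16 * (Q : ℝ) ^ 4) =
          (16 * (Q : ℝ) ^ 4 * ((a * Q + b : ℕ) : ℝ)) * s := by ring
        rw [this]
        exact mul_le_mul_of_nonneg_right h4 hs0.le
      have e7 : s * s ≤ s ^ 4 := by
        have : 1 ≤ s * s := by nlinarith
        nlinarith
      linarith
    have e8 : (s / (2 * Q)) ^ 4 ≤ ((N / (Q * p) : ℕ) : ℝ) ^ 4 :=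
      pow_le_pow_left₀ (by positivity) hM4 4
    exact_mod_cast e1.trans (e4.trans e8)
  -- the bound for one class modulo `Q * p`
  have hbound : ∀ n₀ : ℕ, ∑ n ∈ (Icc 1 N).filter (fun n => n % (Q * p) = n₀ % (Q * p)),
      ArithmeticFunction.vonMangoldt (a * n + b) ≤
        3 * C * (AF ((a * Q : ℕ) : ℤ) / Q) * N * (1 / p) := by
    intro n₀
    refine (one_class hMA a b ha N (Q * p) n₀ hm0 hMN₁ hcoef).trans ?_
    have e0 : (N : ℝ) / ((Q * p : ℕ) : ℝ) = N * (1 / Q) * (1 / p) := by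
      push_cast
      field_simp
    have eL : Real.log ((a * (Q * p) + b : ℕ) : ℝ) ≤ C * ((N : ℝ) / ((Q * p : ℕ) : ℝ)) *
        AF ((a * Q : ℕ) : ℤ) := by
      have f1 : Real.log ((a * (Q * p) + b : ℕ) : ℝ) ≤ C / Q * s := by
        refine le_trans ?_ h1
        have f2 : 0 < a * (Q * p) + b := by
          have := Nat.mul_pos ha hm0
          omega
        refine Real.log_le_log (by exact_mod_cast f2) ?_
        push_cast
        have e2 : (a : ℝ) * (Q * p) ≤ a * Q * s := by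
          have : (a : ℝ) * (Q * p) = a * Q * p := by ring
          rw [this]
          exact mul_le_mul_of_nonneg_left hps (by positivity)
        have e3 : (b : ℝ) ≤ b * s := by
          have : (0 : ℝ) ≤ b := Nat.cast_nonneg _
          nlinarith
        linarith [e2, e3]
      have f3 : C / Q * s = C * (s / Q) := by ring
      have f4 : C * (s / Q) ≤ C * ((N : ℝ) / ((Q * p : ℕ) : ℝ)) :=
        mul_le_mul_of_nonneg_left hM1 hC.le
      have f5 : C * ((N : ℝ) / ((Q * p : ℕ) : ℝ)) ≤ C * ((N : ℝ) / ((Q * p : ℕ) : ℝ)) *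
          AF ((a * Q : ℕ) : ℤ) := by
        have : 0 ≤ C * ((N : ℝ) / ((Q * p : ℕ) : ℝ)) := by positivity
        nlinarith
      linarith
    have eM : C * ((N / (Q * p) : ℕ) : ℝ) * AF ((a * (Q * p) : ℕ) : ℤ) ≤
        C * ((N : ℝ) / ((Q * p : ℕ) : ℝ)) * (2 * AF ((a * Q : ℕ) : ℤ)) := by
      have f1 : AF ((a * (Q * p) : ℕ) : ℤ) ≤ 2 * AF ((a * Q : ℕ) : ℤ) := by
        have f2 : ((a * (Q * p) : ℕ) : ℤ) = ((p ^ 1 : ℕ) : ℤ) ^ 1 * ((a * Q : ℕ) : ℤ) := by
          push_cast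
          ring
        rw [f2]
        refine (AF_mul_le _ _ ?_ haQ).trans ?_
        · rw [pow_one, pow_one]
          exact_mod_cast hp.ne_zero
        · exact mul_le_mul_of_nonneg_right (AF_ppow hp 1 1) (by linarith)
      have f3 : 0 ≤ AF ((a * (Q * p) : ℕ) : ℤ) := by
        unfold AF
        positivity
      gcongr
    have eS : 3 * C * (AF ((a * Q : ℕ) : ℤ) / Q) * N * (1 / p) =
        C * ((N : ℝ) / ((Q * p : ℕ) : ℝ)) * AF ((a * Q : ℕ) : ℤ) +
        C * ((N : ℝ) / ((Q * p : ℕ) : ℝ)) * (2 * AF ((a * Q : ℕ) : ℤ)) := by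
      rw [e0]
      ring
    rw [eS]
    exact add_le_add eL eM
  by_cases hne : ((Icc 1 N).filter fun n => n % Q = r % Q ∧ n % p = r' % p).Nonempty
  · obtain ⟨n₀, hn₀⟩ := hne
    have h6 := (mem_filter.1 hn₀).2
    refine le_trans (sum_le_sum_of_subset_of_nonneg ?_ fun n _ _ =>
      ArithmeticFunction.vonMangoldt_nonneg) (hbound n₀)
    intro n hn
    obtain ⟨h7, h8, h9⟩ := mem_filter.1 hn
    refine mem_filter.2 ⟨h7, ?_⟩
    have h10 : n ≡ n₀ [MOD Q] := by
      rw [Nat.ModEq, h8, h6.1]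
    have h11 : n ≡ n₀ [MOD p] := by
      rw [Nat.ModEq, h9, h6.2]
    exact (Nat.modEq_and_modEq_iff_modEq_mul hcop).1 ⟨h10, h11⟩
  · rw [not_nonempty_iff_eq_empty] at hne
    rw [hne, sum_empty]
    have : 0 ≤ AF ((a * Q : ℕ) : ℤ) := by linarith
    positivity

/-- primes in progressions -/
lemma main_low (a b Q r : ℕ) (ha : 1 ≤ a) (hQ : 1 ≤ Q)
    (hcop : Nat.Coprime (a * r + b) (a * Q)) :
    ∀ᶠ N : ℕ in atTop, (1 / 2 : ℝ) * (AF ((a * Q : ℕ) : ℤ) / Q) * N ≤
      ∑ n ∈ (Icc 1 N).filter (fun n => n % Q = r % Q),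
        ArithmeticFunction.vonMangoldt (a * n + b) := by
  classical
  have haQ0 : 0 < a * Q := Nat.mul_pos ha hQ
  have : NeZero (a * Q) := ⟨haQ0.ne'⟩
  have hu : IsUnit ((a * r + b : ℕ) : ZMod (a * Q)) := (ZMod.isUnit_iff_coprime _ _).2 hcop
  have h1 := Pool.Agent.Cov.PNT.pnt_residueClass hu
  have hφ : (0 : ℝ) < ((a * Q).totient : ℝ) := by exact_mod_cast Nat.totient_pos.2 haQ0
  have har : (1 : ℝ) ≤ a := by exact_mod_cast ha
  have hQr : (1 : ℝ) ≤ Q := by exact_mod_cast hQ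
  have h2 : Tendsto (fun N : ℕ => ((a * N + b : ℕ) : ℝ)) atTop atTop := by
    refine tendsto_natCast_atTop_atTop.comp ?_
    refine tendsto_atTop_mono (fun N => ?_) tendsto_id
    have : N ≤ a * N := Nat.le_mul_of_pos_left _ ha
    simp only [id]
    omega
  have h3 := h1.comp h2
  have h4 := (tendsto_order.1 h3).1 (3 / 4 * ((a * Q).totient : ℝ)⁻¹) (by
    have : 0 < ((a * Q).totient : ℝ)⁻¹ := inv_pos.2 hφ
    linarith)
  set K0 : ℝ := ∑ k ∈ Icc 1 (a + b), ArithmeticFunction.vonMangoldt k with hK0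
  have h5 : ∀ᶠ N : ℕ in atTop, K0 ≤ 1 / 4 * ((a * Q).totient : ℝ)⁻¹ * (N : ℝ) :=
    (tendsto_natCast_atTop_atTop.const_mul_atTop
      (by positivity : (0 : ℝ) < 1 / 4 * ((a * Q).totient : ℝ)⁻¹)).eventually_ge_atTop K0
  filter_upwards [h4, h5, eventually_ge_atTop 1] with N h4 h5 hN
  have hNr : (1 : ℝ) ≤ N := by exact_mod_cast hN
  have hpos : (0 : ℝ) < ((a * N + b : ℕ) : ℝ) := by
    have := Nat.mul_pos ha hN
    exact_mod_cast (by omega : 0 < a * N + b)
  simp only [Function.comp, Nat.floor_natCast] at h4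
  rw [lt_div_iff₀ hpos] at h4
  set F : Finset ℕ := (Icc 1 N).filter (fun n => n % Q = r % Q) with hF
  have h6 : ∑ k ∈ Icc 1 (a * N + b), ArithmeticFunction.vonMangoldt.residueClass
      ((a * r + b : ℕ) : ZMod (a * Q)) k ≤
      ∑ n ∈ F, ArithmeticFunction.vonMangoldt (a * n + b) + K0 := by
    have e1 : ∑ k ∈ Icc 1 (a * N + b), ArithmeticFunction.vonMangoldt.residueClass
        ((a * r + b : ℕ) : ZMod (a * Q)) k =
        ∑ k ∈ (Icc 1 (a * N + b)).filter (fun k : ℕ => (k : ZMod (a * Q)) = ((a * r + b : ℕ) :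
          ZMod (a * Q))), ArithmeticFunction.vonMangoldt k := by
      rw [sum_filter]
      refine sum_congr rfl fun k _ => ?_
      unfold ArithmeticFunction.vonMangoldt.residueClass
      rw [Set.indicator_apply]
      rfl
    have e2 : (Icc 1 (a * N + b)).filter (fun k : ℕ => (k : ZMod (a * Q)) = ((a * r + b : ℕ) :
          ZMod (a * Q))) ⊆ F.image (fun n => a * n + b) ∪ Icc 1 (a + b) := by
      intro k hk
      rw [mem_filter, mem_Icc, ZMod.natCast_eq_natCast_iff] at hk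
      obtain ⟨⟨hk1, hk2⟩, hk3⟩ := hk
      rcases le_or_gt k (a + b) with h | h
      · exact mem_union_right _ (mem_Icc.2 ⟨hk1, h⟩)
      · refine mem_union_left _ (mem_image.2 ?_)
        obtain ⟨k', rfl⟩ : ∃ k', k = k' + b := ⟨k - b, by omega⟩
        have f1 : k' ≡ a * r [MOD a * Q] := Nat.ModEq.add_right_cancel' b hk3
        have f2 : a ∣ k' := by
          have f3 : k' ≡ a * r [MOD a] := f1.of_dvd (Dvd.intro _ rfl)
          exact (f3.dvd_iff dvd_rfl).2 (Dvd.intro _ rfl)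
        obtain ⟨n, rfl⟩ := f2
        have f4 : n ≡ r [MOD Q] := Nat.ModEq.mul_left_cancel' (by omega) f1
        refine ⟨n, ?_, rfl⟩
        rw [hF, mem_filter, mem_Icc]
        refine ⟨⟨?_, ?_⟩, f4⟩
        · rcases Nat.eq_zero_or_pos n with f5 | f5
          · rw [f5] at h
            omega
          · exact f5
        · have f6 : a * n ≤ a * N := by omega
          exact Nat.le_of_mul_le_mul_left f6 ha
    have e3 : ∑ k ∈ F.image (fun n => a * n + b), ArithmeticFunction.vonMangoldt k =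
        ∑ n ∈ F, ArithmeticFunction.vonMangoldt (a * n + b) := by
      rw [sum_image]
      intro n _ n' _ hnn
      have : a * n = a * n' := by
        have : a * n + b = a * n' + b := hnn
        omega
      exact Nat.eq_of_mul_eq_mul_left ha this
    rw [e1]
    refine (sum_le_sum_of_subset_of_nonneg e2 fun _ _ _ =>
      ArithmeticFunction.vonMangoldt_nonneg).trans ?_
    rw [← e3]
    have e4 := sum_union_inter (s₁ := F.image (fun n => a * n + b)) (s₂ := Icc 1 (a + b))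
      (f := fun k => ArithmeticFunction.vonMangoldt k)
    have e5 : 0 ≤ ∑ k ∈ F.image (fun n => a * n + b) ∩ Icc 1 (a + b),
        ArithmeticFunction.vonMangoldt k :=
      sum_nonneg fun _ _ => ArithmeticFunction.vonMangoldt_nonneg
    linarith
  have h7 : AF ((a * Q : ℕ) : ℤ) / Q = a * ((a * Q).totient : ℝ)⁻¹ := by
    unfold AF
    rw [Int.natAbs_natCast]
    push_cast
    field_simp
  rw [h7]
  have h8 : 3 / 4 * ((a * Q).totient : ℝ)⁻¹ * (a * N) ≤
      3 / 4 * ((a * Q).totient : ℝ)⁻¹ * ((a * N + b : ℕ) : ℝ) := by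
    apply mul_le_mul_of_nonneg_left _ (by positivity)
    push_cast
    have : (0 : ℝ) ≤ b := Nat.cast_nonneg _
    linarith
  have h9 : 1 / 4 * ((a * Q).totient : ℝ)⁻¹ * (N : ℝ) ≤
      1 / 4 * ((a * Q).totient : ℝ)⁻¹ * (a * N) := by
    apply mul_le_mul_of_nonneg_left _ (by positivity)
    nlinarith
  have h10 : 1 / 2 * (↑a * ((a * Q).totient : ℝ)⁻¹) * ↑N =
      3 / 4 * ((a * Q).totient : ℝ)⁻¹ * (a * N) - 1 / 4 * ((a * Q).totient : ℝ)⁻¹ * (a * N) := by
    ring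
  rw [h10]
  linarith

end Pool.Agent.Q24.EL
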