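import Pool.Agent.Q270.EN.Stm8
import Pool.Agent.Q48.EN.Nec
import Pool.Agent.Q24.EL.ClsQ

/-!
# Project EL (helper270): the condition on the set of primes is necessary, also with one factor
of the von Mangoldt function
-/

set_option autoImplicit false

namespace Pool.Agent.Q24.EL

open Finset Filter Topology MeasureTheory
open Pool.Agent.Q270.EN Pool.Agent.Q259.RM Pool.Agent.Q177.EL Pool.Agent.Q48.EN

lemma sum_union_le (s t : Finset ℕ) (f : ℕ → ℝ) (hf : ∀ n, 0 ≤ f n) :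
    ∑ n ∈ s ∪ t, f n ≤ ∑ n ∈ s, f n + ∑ n ∈ t, f n := by
  have h2 := sum_union_inter (s₁ := s) (s₂ := t) (f := f)
  have h3 : 0 ≤ ∑ p ∈ s ∩ t, f p := sum_nonneg fun p _ => hf p
  linarith

theorem t_NECL (hBig : S_BIG) : S_NECL := by
  classical
  intro P hP A T U hTU hdis hU hTc hTcop
  have hUA : Adm A A U := adm_right hTU hU
  rcases T.eq_empty_or_nonempty with hT0 | hT0
  · subst hT0
    obtain ⟨w, c, hw, hc, h⟩ := t_NEC P hP A U hUA
    refine ⟨w, c, hw, hc, h.mono fun N hN s hs => ?_⟩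
    refine (hN s hs).trans (le_of_eq ?_)
    congr 1
    refine sum_congr rfl fun n _ => ?_
    have h1 : vT ∅ n = 1 := by
      unfold vT
      rw [prod_empty]
    rw [h1]
    simp
  obtain ⟨⟨a, b⟩, hT1⟩ := Finset.card_eq_one.1 (le_antisymm hTc hT0.card_pos)
  subst hT1
  have hab := hTU.2.1 (a, b) (mem_union_left _ (mem_singleton_self _))
  have hcop0 := hTcop (a, b) (mem_singleton_self _)
  simp only at hab hcop0
  obtain ⟨ha1, haA, hbA⟩ := hab
  obtain ⟨C₁, hC₁, N₁, hMA⟩ := MA1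
  obtain ⟨CB, hCB, hBIG⟩ := hBig A {(a, b)} U hTU hdis
  obtain ⟨k, hk⟩ : ∃ k, k = U.card := ⟨_, rfl⟩
  have hk1 : 1 ≤ k := by rw [hk]; exact hU.card_pos
  have hk1r : (1 : ℝ) ≤ k := by exact_mod_cast hk1
  obtain ⟨M, hM⟩ : ∃ M : ℕ → ℕ, M = fun n => ∏ q ∈ U, (q.1 * n + q.2) := ⟨_, rfl⟩
  have hMne : ∀ n, 1 ≤ n → M n ≠ 0 := by
    intro n hn
    rw [hM]
    refine Finset.prod_ne_zero_iff.2 fun q hq => ?_
    have h8 := (hUA.2.1 q hq).1
    have h9 : 1 ≤ q.1 * n := Nat.mul_pos h8 hn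
    omega
  obtain ⟨Y0, hY0⟩ := ms_tail P hP (show (0 : ℝ) < 1 / (24 * k * C₁) by positivity)
  obtain ⟨p0, hp0⟩ : ∃ p0, p0 = max A Y0 := ⟨_, rfl⟩
  have hp0A : A ≤ p0 := by rw [hp0]; exact le_max_left _ _
  have hp0Y : Y0 ≤ p0 := by rw [hp0]; exact le_max_right _ _
  -- the class
  obtain ⟨q0, hq0, hq0p, hq0m⟩ := Nat.forall_exists_prime_gt_and_modEq (p0 + a + b)
    (q := a) (a := b) (by omega) hcop0.symm
  obtain ⟨r, hr⟩ : ∃ r, q0 = a * r + b := by
    have h1 : a ∣ q0 - b := (Nat.modEq_iff_dvd' (by omega)).1 hq0m.symm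
    obtain ⟨r, hr⟩ := h1
    exact ⟨r, by omega⟩
  have hr1 : 1 ≤ r := by
    rcases Nat.eq_zero_or_pos r with h | h
    · rw [h] at hr
      omega
    · exact h
  obtain ⟨Q, hQ⟩ : ∃ Q, Q = (p0.factorial) ^ (M r + 1) := ⟨_, rfl⟩
  have hQ1 : 1 ≤ Q := by
    rw [hQ]
    exact Nat.pow_pos (Nat.factorial_pos _)
  have hQ1r : (1 : ℝ) ≤ Q := by exact_mod_cast hQ1
  have hQcop : ∀ p : ℕ, p.Prime → p0 < p → Nat.Coprime Q p := by
    intro p hp hpp
    rw [hQ]
    apply Nat.Coprime.pow_left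
    rw [Nat.coprime_comm, Nat.Prime.coprime_iff_not_dvd hp, hp.dvd_factorial]
    omega
  have hcopr : Nat.Coprime (a * r + b) (a * Q) := by
    rw [← hr]
    apply Nat.Coprime.mul_right
    · rw [Nat.Prime.coprime_iff_not_dvd hq0p]
      intro h
      have := Nat.le_of_dvd (by omega) h
      omega
    · exact (hQcop q0 hq0p (by omega)).symm
  obtain ⟨g, hg⟩ : ∃ g : ℝ, g = AF ((a * Q : ℕ) : ℤ) / Q := ⟨_, rfl⟩
  have hg0 : 0 < g := by
    have h1 : ((a * Q : ℕ) : ℤ) ≠ 0 := by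
      exact_mod_cast (Nat.mul_pos ha1 hQ1).ne'
    have h2 := AF_one h1
    rw [hg]
    apply div_pos (by linarith) (by linarith)
  have hmain := main_low a b Q r ha1 hQ1 hcopr
  rw [← hg] at hmain
  have htwo := two_classes hC₁ hMA a b Q ha1 hQ1
  rw [← hg] at htwo
  -- the large primes
  obtain ⟨δ, hδ⟩ : ∃ δ : ℝ, δ = min (1 / 4) (g / (8 * CB)) := ⟨_, rfl⟩
  have hδ0 : 0 < δ := by
    rw [hδ]
    exact lt_min (by norm_num) (by positivity)
  have hδ4 : δ ≤ 1 / 4 := by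
    rw [hδ]
    exact min_le_left _ _
  have hδ2 : CB * δ ≤ g / 8 := by
    have h1 : δ ≤ g / (8 * CB) := by
      rw [hδ]
      exact min_le_right _ _
    calc CB * δ ≤ CB * (g / (8 * CB)) := mul_le_mul_of_nonneg_left h1 hCB.le
      _ = g / 8 := by field_simp
  have hbig := hBIG δ hδ0 hδ4
  have hTA : ({(a, b)} : Finset (ℕ × ℕ)) = ∅ ∨ Adm A A {(a, b)} := adm_left hTU
  obtain ⟨Cδ, hCδ, hcls⟩ := t_CLS A {(a, b)} hTA δ hδ0 (by linarith)
  obtain ⟨Y1, hY1⟩ := ms_tail P hP (show (0 : ℝ) < g / (8 * k * Cδ) by positivity)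
  -- the weights
  obtain ⟨Gd, hGd⟩ : ∃ Gd : ℕ → Prop, Gd = fun n => n ≡ r [MOD Q] ∧
    ∀ p : ℕ, p.Prime → p ∈ P → p0 < p → ¬ p ∣ M n := ⟨_, rfl⟩
  refine ⟨fun n => if Gd n then 1 else 0, g / 8, ?_, by positivity, ?_⟩
  · intro n
    simp only
    split_ifs <;> simp
  filter_upwards [hmain, htwo, hbig, hcls, eventually_ge_atTop ((Y1 + 1) * (Y1 + 1)),
    eventually_ge_atTop (max 1 p0), eventually_ge_atTop (A * A)]
    with N hmain htwo hbig hcls hNY hN2 hNA s hs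
  have hN1' : 1 ≤ N := (le_max_left _ _).trans hN2
  have hNp0 : p0 ≤ N := (le_max_right _ _).trans hN2
  have hNr : (1 : ℝ) ≤ N := by exact_mod_cast hN1'
  obtain ⟨X, hX⟩ : ∃ X, X = 2 * A * N := ⟨_, rfl⟩
  have hAN : A ≤ A * N := Nat.le_mul_of_pos_right _ hN1'
  have hU' : Adm A (A * N) U := ⟨hUA.1, fun q hq => ⟨(hUA.2.1 q hq).1, (hUA.2.1 q hq).2.1,
    (hUA.2.1 q hq).2.2.trans hAN⟩, hUA.2.2⟩
  have hXp0 : p0 ≤ X := by
    rw [hX]
    nlinarith
  -- the products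
  obtain ⟨σ, hσ⟩ : ∃ σ : ℝ, σ = ∏ p ∈ odd (pr P p0) (M r), s p := ⟨_, rfl⟩
  have hprod : ∀ n ∈ Icc 1 N, Gd n → ∏ q ∈ U, cmf P s (q.1 * n + q.2) = σ := by
    intro n hn hgn
    rw [hGd] at hgn
    rw [prod_cmf hs hU' hn, hσ, ← hX]
    have hn1 := (Finset.mem_Icc.1 hn).1
    have hMn : M n = ∏ q ∈ U, (q.1 * n + q.2) := by rw [hM]
    rw [← hMn]
    refine Finset.prod_congr ?_ fun p _ => rfl
    ext p
    unfold odd
    simp only [Finset.mem_filter, mem_pr]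
    have hmod : M n ≡ M r [MOD Q] := by
      rw [hM]
      exact prod_modEq U hgn.1
    constructor
    · rintro ⟨⟨h1, h2, h3⟩, h4⟩
      have h5 : p ≤ p0 := by
        by_contra h6
        push Not at h6
        apply hgn.2 p h1 h2 h6
        apply Nat.dvd_of_factorization_pos
        intro h7
        rw [h7] at h4
        exact absurd h4 (by decide)
      refine ⟨⟨h1, h2, h5⟩, ?_⟩
      have h6 : p ^ (M r + 1) ∣ Q := by
        rw [hQ]
        exact pow_dvd_pow_of_dvd ((h1.dvd_factorial).2 h5) _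
      rw [← fact_congr h1 (hMne n hn1) (hMne r hr1) (Nat.lt_succ_self _) (hmod.of_dvd h6)]
      exact h4
    · rintro ⟨⟨h1, h2, h3⟩, h4⟩
      refine ⟨⟨h1, h2, h3.trans hXp0⟩, ?_⟩
      have h6 : p ^ (M r + 1) ∣ Q := by
        rw [hQ]
        exact pow_dvd_pow_of_dvd ((h1.dvd_factorial).2 h3) _
      rw [fact_congr h1 (hMne n hn1) (hMne r hr1) (Nat.lt_succ_self _) (hmod.of_dvd h6)]
      exact h4
  have hσ1 : |σ| = 1 := by
    rw [hσ, Finset.abs_prod]
    refine Finset.prod_eq_one fun p _ => ?_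
    rcases hs p with h | h <;> rw [h] <;> simp
  obtain ⟨G, hG⟩ : ∃ G, G = (Icc 1 N).filter Gd := ⟨_, rfl⟩
  have hv0 : ∀ n, 0 ≤ vT {(a, b)} n := fun n => Pool.Agent.Q177.EL.vT_nonneg _ _
  have hsum : ‖∑ n ∈ Icc 1 N, (if Gd n then (1 : ℂ) else 0) * (vT {(a, b)} n : ℂ) *
      ((∏ q ∈ U, cmf P s (q.1 * n + q.2) : ℝ) : ℂ)‖ = ∑ n ∈ G, vT {(a, b)} n := by
    have h1 : ∑ n ∈ Icc 1 N, (if Gd n then (1 : ℂ) else 0) * (vT {(a, b)} n : ℂ) *
      ((∏ q ∈ U, cmf P s (q.1 * n + q.2) : ℝ) : ℂ) =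
      ((∑ n ∈ G, vT {(a, b)} n : ℝ) : ℂ) * (σ : ℂ) := by
      rw [hG, Finset.sum_filter, Complex.ofReal_sum, Finset.sum_mul]
      refine Finset.sum_congr rfl fun n hn => ?_
      by_cases h : Gd n
      · rw [if_pos h, if_pos h, hprod n hn h, one_mul]
      · rw [if_neg h, if_neg h, zero_mul, zero_mul, Complex.ofReal_zero, zero_mul]
    rw [h1, norm_mul, Complex.norm_real, Complex.norm_real, Real.norm_eq_abs, Real.norm_eq_abs,
      hσ1, mul_one, abs_of_nonneg (Finset.sum_nonneg fun n _ => hv0 n)]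
  rw [hsum]
  -- the exceptional sets
  obtain ⟨R1, hR1⟩ : ∃ R1, R1 = ((pr P N).filter (p0 < ·)).filter (fun p => p * p ≤ N) :=
    ⟨_, rfl⟩
  obtain ⟨R2, hR2⟩ : ∃ R2, R2 = ((pr P N).filter (Y1 < ·)).filter
    (fun p : ℕ => N < p * p ∧ (p : ℝ) ≤ (N : ℝ) ^ (1 - δ)) := ⟨_, rfl⟩
  obtain ⟨F, hF⟩ : ∃ F, F = (Icc 1 N).filter (fun n => n % Q = r % Q) := ⟨_, rfl⟩
  obtain ⟨B1, hB1⟩ : ∃ B1, B1 = R1.biUnion fun p =>
    (Icc 1 N).filter fun n => n % Q = r % Q ∧ p ∣ M n := ⟨_, rfl⟩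
  obtain ⟨B2, hB2⟩ : ∃ B2, B2 = R2.biUnion fun p =>
    (Icc 1 N).filter fun n => p ∣ M n := ⟨_, rfl⟩
  obtain ⟨B3, hB3⟩ : ∃ B3, B3 = (Icc 1 N).filter fun n => ∃ p : ℕ, p.Prime ∧
    (N : ℝ) ^ (1 - δ) < p ∧ p ∣ ∏ q ∈ U, (q.1 * n + q.2) := ⟨_, rfl⟩
  have hcover : F ⊆ G ∪ (B1 ∪ (B2 ∪ B3)) := by
    intro n hn
    rw [hF, Finset.mem_filter] at hn
    obtain ⟨hn1, hn2⟩ := hn
    by_cases h1 : ∀ p : ℕ, p.Prime → p ∈ P → p0 < p → ¬ p ∣ M n
    · refine Finset.mem_union_left _ ?_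
      rw [hG, Finset.mem_filter, hGd]
      exact ⟨hn1, hn2, h1⟩
    push Not at h1
    obtain ⟨p, hp, hpP, hpp0, hpM⟩ := h1
    refine Finset.mem_union_right _ ?_
    by_cases h2 : (N : ℝ) ^ (1 - δ) < p
    · refine Finset.mem_union_right _ (Finset.mem_union_right _ ?_)
      rw [hB3, Finset.mem_filter]
      rw [hM] at hpM
      exact ⟨hn1, p, hp, h2, hpM⟩
    push Not at h2
    have hpN : p ≤ N := by
      have h3 : (p : ℝ) ≤ N := by
        calc (p : ℝ) ≤ (N : ℝ) ^ (1 - δ) := h2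
          _ ≤ (N : ℝ) ^ (1 : ℝ) := Real.rpow_le_rpow_of_exponent_le hNr (by linarith)
          _ = N := Real.rpow_one _
      exact_mod_cast h3
    by_cases h3 : p * p ≤ N
    · refine Finset.mem_union_left _ ?_
      rw [hB1, Finset.mem_biUnion]
      refine ⟨p, ?_, Finset.mem_filter.2 ⟨hn1, hn2, hpM⟩⟩
      rw [hR1, Finset.mem_filter, Finset.mem_filter, mem_pr]
      exact ⟨⟨⟨hp, hpP, hpN⟩, hpp0⟩, h3⟩
    · push Not at h3
      refine Finset.mem_union_right _ (Finset.mem_union_left _ ?_)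
      rw [hB2, Finset.mem_biUnion]
      refine ⟨p, ?_, Finset.mem_filter.2 ⟨hn1, hpM⟩⟩
      rw [hR2, Finset.mem_filter, Finset.mem_filter, mem_pr]
      refine ⟨⟨⟨hp, hpP, hpN⟩, ?_⟩, h3, h2⟩
      by_contra h4
      push Not at h4
      have h5 : p * p ≤ (Y1 + 1) * (Y1 + 1) := Nat.mul_le_mul (by omega) (by omega)
      omega
  have hFsum : (1 / 2 : ℝ) * g * N ≤ ∑ n ∈ F, vT {(a, b)} n := by
    rw [hF]
    refine hmain.trans (le_of_eq (Finset.sum_congr rfl fun n _ => ?_))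
    rw [vT_sing]
  have hS3 : ∑ n ∈ B3, vT {(a, b)} n ≤ g / 8 * N := by
    rw [hB3]
    refine hbig.trans ?_
    exact mul_le_mul_of_nonneg_right hδ2 (by linarith)
  have hS2 : ∑ n ∈ B2, vT {(a, b)} n ≤ g / 8 * N := by
    rw [hB2]
    refine (sum_biU _ _ _ hv0).trans ?_
    have h1 : ∀ p ∈ R2, ∑ n ∈ (Icc 1 N).filter (fun n => p ∣ M n), vT {(a, b)} n ≤
        k * Cδ * N * (1 / (p : ℝ)) := by
      intro p hp
      rw [hR2, Finset.mem_filter, Finset.mem_filter, mem_pr] at hp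
      obtain ⟨⟨⟨hp1, hp2, hp3⟩, hp4⟩, hp5, hp6⟩ := hp
      have hpA : A < p := by
        by_contra h4
        push Not at h4
        have h5 : p * p ≤ A * A := Nat.mul_le_mul h4 h4
        omega
      have h2 := coef A U hUA (vT {(a, b)}) hv0 N p hp1 hpA (Cδ * N / p) (by
        intro r'
        have h3 := hcls p 1 r' hp1 le_rfl (by norm_num) (by rw [pow_one]; exact hp6)
        rw [pow_one] at h3
        exact h3)
      rw [hM, hk]
      refine h2.trans (le_of_eq ?_)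
      ring
    refine (Finset.sum_le_sum h1).trans ?_
    rw [← Finset.mul_sum]
    have h2 : ∑ p ∈ R2, 1 / (p : ℝ) ≤ g / (8 * k * Cδ) := by
      refine le_trans ?_ (hY1 Y1 le_rfl N)
      unfold ms
      rw [hR2]
      exact Finset.sum_le_sum_of_subset_of_nonneg (Finset.filter_subset _ _)
        fun _ _ _ => by positivity
    calc (k : ℝ) * Cδ * N * ∑ p ∈ R2, 1 / (p : ℝ) ≤ k * Cδ * N * (g / (8 * k * Cδ)) :=
          mul_le_mul_of_nonneg_left h2 (by positivity)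
      _ = g / 8 * N := by field_simp
  have hS1 : ∑ n ∈ B1, vT {(a, b)} n ≤ g / 8 * N := by
    rw [hB1]
    refine (sum_biU _ _ _ hv0).trans ?_
    have h1 : ∀ p ∈ R1, ∑ n ∈ (Icc 1 N).filter (fun n => n % Q = r % Q ∧ p ∣ M n),
        vT {(a, b)} n ≤ k * (3 * C₁ * g * N) * (1 / (p : ℝ)) := by
      intro p hp
      rw [hR1, Finset.mem_filter, Finset.mem_filter, mem_pr] at hp
      obtain ⟨⟨⟨hp1, hp2, hp3⟩, hp4⟩, hp5⟩ := hp
      have hv' : ∀ n, 0 ≤ (if n % Q = r % Q then vT {(a, b)} n else 0) := by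
        intro n
        split_ifs
        · exact hv0 n
        · exact le_rfl
      have h2 := coef A U hUA (fun n => if n % Q = r % Q then vT {(a, b)} n else 0) hv' N p hp1
        (by omega) (3 * C₁ * g * N * (1 / p)) (by
          intro r'
          have h3 := htwo p hp1 hp5 (hQcop p hp1 hp4) r r'
          refine le_trans (le_of_eq ?_) h3
          rw [← Finset.sum_filter, Finset.filter_filter]
          refine Finset.sum_congr ?_ fun n _ => by rw [vT_sing]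
          refine Finset.filter_congr fun n _ => ?_
          tauto)
      rw [← Finset.sum_filter, Finset.filter_filter] at h2
      have h3 : (Icc 1 N).filter (fun n => n % Q = r % Q ∧ p ∣ M n) =
          (Icc 1 N).filter (fun n => p ∣ ∏ q ∈ U, (q.1 * n + q.2) ∧ n % Q = r % Q) := by
        rw [hM]
        refine Finset.filter_congr fun n _ => ?_
        tauto
      rw [h3, hk]
      refine h2.trans (le_of_eq ?_)
      ring
    refine (Finset.sum_le_sum h1).trans ?_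
    rw [← Finset.mul_sum]
    have h2 : ∑ p ∈ R1, 1 / (p : ℝ) ≤ 1 / (24 * k * C₁) := by
      refine le_trans ?_ (hY0 p0 hp0Y N)
      unfold ms
      rw [hR1]
      exact Finset.sum_le_sum_of_subset_of_nonneg (Finset.filter_subset _ _)
        fun _ _ _ => by positivity
    calc (k : ℝ) * (3 * C₁ * g * N) * ∑ p ∈ R1, 1 / (p : ℝ) ≤
          k * (3 * C₁ * g * N) * (1 / (24 * k * C₁)) :=
          mul_le_mul_of_nonneg_left h2 (by positivity)
      _ = g / 8 * N := by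
        field_simp
        ring
  have htot : ∑ n ∈ F, vT {(a, b)} n ≤ ∑ n ∈ G, vT {(a, b)} n + (g / 8 * N + (g / 8 * N +
      g / 8 * N)) := by
    refine (Finset.sum_le_sum_of_subset_of_nonneg hcover fun n _ _ => hv0 n).trans ?_
    refine (sum_union_le _ _ _ hv0).trans (add_le_add le_rfl ?_)
    refine (sum_union_le _ _ _ hv0).trans (add_le_add hS1 ?_)
    exact (sum_union_le _ _ _ hv0).trans (add_le_add hS2 hS3)
  linarith

end Pool.Agent.Q24.EL
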